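import Mathlib
import Pool.Agent.H14.TriProd

set_option autoImplicit false

namespace Pool.Agent.Results.MP_7d7944_co.NoMinus

open Finset

/-- `F` is bent (perfect nonlinear). -/
def Bent {n m : ℕ} (F : (Fin n → ZMod 2) → (Fin m → ZMod 2)) : Prop :=
  ∀ a : Fin n → ZMod 2, a ≠ 0 → ∀ b : Fin m → ZMod 2,
    (univ.filter fun x => F (x + a) + F x = b).card = 2 ^ (n - m)

/-- `F` has the extremal value distribution of type minus. -/
def TypeMinus {n m : ℕ} (F : (Fin n → ZMod 2) → (Fin m → ZMod 2)) : Prop :=
  ∃ a : Fin m → ZMod 2,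
    ((univ.filter fun x => F x = a).card : ℤ) = 2 ^ (n - m) - 2 ^ (n / 2) + 2 ^ (n / 2 - m) ∧
    ∀ b, b ≠ a → ((univ.filter fun x => F x = b).card : ℤ) = 2 ^ (n - m) + 2 ^ (n / 2 - m)

section
variable {K : Type} [Field K] [Fintype K] [DecidableEq K]

theorem bad_card (hq : Fintype.card K = 128) (L : K × K →+ K) (a y0 : K) :
    (univ.filter fun r : K → K => ∀ y, y ≠ y0 → ∀ x, x * y + r y + L (x, y) ≠ a).card ≤
      128 * 64 ^ 127 := by
  classical
  rcases (univ.filter fun r : K → K =>
    ∀ y, y ≠ y0 → ∀ x, x * y + r y + L (x, y) ≠ a).eq_empty_or_nonempty with h | ⟨r0, hr0⟩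
  · rw [h]; simp
  have hr0 := (Finset.mem_filter.1 hr0).2
  have Lsplit : ∀ x y, L (x, y) = L (x, 0) + L (0, y) := by
    intro x y; rw [← map_add]; simp
  let T : K → K → K := fun y x => x * y + L (x, 0)
  have Tadd : ∀ y x x', T y (x - x') = T y x - T y x' := by
    intro y x x'
    have : L (x - x', 0) = L (x, 0) - L (x', 0) := by rw [← map_sub]; simp
    simp only [T, this]; ring
  have hker : ∀ y, y ≠ y0 → ∃ x, x ≠ 0 ∧ T y x = 0 := by
    intro y hy
    by_contra hc
    push Not at hc
    have hinj : Function.Injective (T y) := by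
      intro x x' h
      by_contra hne
      exact hc (x - x') (sub_ne_zero.2 hne) (by rw [Tadd, h, sub_self])
    obtain ⟨x, hx⟩ := Finite.injective_iff_surjective.1 hinj (a - r0 y - L (0, y))
    apply hr0 y hy x
    rw [Lsplit]
    simp only [T] at hx
    linear_combination hx
  choose! k hk0 hk using hker
  have kinj : ∀ y y' x, x ≠ 0 → T y x = 0 → T y' x = 0 → y = y' := by
    intro y y' x hx h1 h2
    simp only [T] at h1 h2
    apply mul_left_cancel₀ hx
    linear_combination h1 - h2
  have ksurj : ∀ x ∈ univ.erase (0 : K), ∃ y, ∃ _ : y ∈ univ.erase y0, x = k y := by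
    apply Finset.surj_on_of_inj_on_of_card_le (s := univ.erase y0) (t := univ.erase (0 : K))
      (fun y _ => k y)
    · intro y hy
      exact Finset.mem_erase.2 ⟨hk0 y (Finset.mem_erase.1 hy).1, Finset.mem_univ _⟩
    · intro y y' hy hy' h
      have h1 := (Finset.mem_erase.1 hy).1
      have h2 := (Finset.mem_erase.1 hy').1
      exact kinj y y' (k y) (hk0 y h1) (hk y h1) (by rw [h]; exact hk y' h2)
    · simp [Finset.card_erase_of_mem]
  have himg : ∀ y, y ≠ y0 → 64 ≤ (univ.image (T y)).card := by
    intro y hy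
    have := Finset.card_le_mul_card_image (f := T y) (univ : Finset K) 2 (by
      intro v hv
      obtain ⟨x0, -, rfl⟩ := Finset.mem_image.1 hv
      refine le_trans (Finset.card_le_card (t := {x0, x0 + k y}) ?_) Finset.card_le_two
      intro x hx
      have hx := (Finset.mem_filter.1 hx).2
      by_cases h : x = x0
      · simp [h]
      · obtain ⟨y', hy', e⟩ := ksurj (x - x0)
          (Finset.mem_erase.2 ⟨sub_ne_zero.2 h, Finset.mem_univ _⟩)
        have h1 := (Finset.mem_erase.1 hy').1
        have : y = y' := kinj y y' (x - x0) (sub_ne_zero.2 h) (by rw [Tadd, hx, sub_self])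
          (by rw [e]; exact hk y' h1)
        subst this
        have : x = x0 + k y := by rw [← e]; ring
        simp [this])
    rw [Finset.card_univ, hq] at this
    omega
  let S : K → Finset K := fun y => if y = y0 then univ else
    (((univ.image (T y)).image fun v => a - v - L (0, y)))ᶜ
  have hsub : (univ.filter fun r : K → K => ∀ y, y ≠ y0 → ∀ x, x * y + r y + L (x, y) ≠ a) ⊆
      Fintype.piFinset S := by
    intro r hr
    have hr := (Finset.mem_filter.1 hr).2
    rw [Fintype.mem_piFinset]
    intro y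
    by_cases hy : y = y0
    · simp [S, hy]
    · simp only [S, if_neg hy, Finset.mem_compl, Finset.mem_image, Finset.mem_univ, true_and]
      rintro ⟨_, ⟨x, rfl⟩, h⟩
      apply hr y hy x
      rw [Lsplit, ← h]
      simp only [T]; ring
  refine le_trans (Finset.card_le_card hsub) ?_
  rw [Fintype.card_piFinset, ← Finset.mul_prod_erase univ _ (Finset.mem_univ y0)]
  apply Nat.mul_le_mul
  · simp [S, hq]
  · refine le_trans (Finset.prod_le_pow_card _ _ 64 ?_) ?_
    · intro y hy
      have hy := (Finset.mem_erase.1 hy).1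
      simp only [S, if_neg hy]
      rw [Finset.card_compl, Finset.card_image_of_injective _ (by
        intro u v h
        simpa using h), hq]
      have := himg y hy
      omega
    · rw [Finset.card_erase_of_mem (Finset.mem_univ _), Finset.card_univ, hq]

theorem exists_rho (hq : Fintype.card K = 128) {I : Type} [Fintype I]
    (hI : Fintype.card I = 2 ^ 98) (L : I → (K × K →+ K)) :
    ∃ r : K → K, ∀ i a y0, ¬ ∀ y, y ≠ y0 → ∀ x, x * y + r y + L i (x, y) ≠ a := by
  classical
  by_contra hc
  push Not at hc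
  have hsub : (univ : Finset (K → K)) ⊆ (univ : Finset (I × K × K)).biUnion fun t =>
      univ.filter fun r : K → K => ∀ y, y ≠ t.2.2 → ∀ x, x * y + r y + L t.1 (x, y) ≠ t.2.1 := by
    intro r _
    obtain ⟨i, a, y0, h⟩ := hc r
    exact Finset.mem_biUnion.2 ⟨(i, a, y0), Finset.mem_univ _,
      Finset.mem_filter.2 ⟨Finset.mem_univ _, h⟩⟩
  have h1 := (Finset.card_le_card hsub).trans (Finset.card_biUnion_le_card_mul _ _ _
    (fun t _ => bad_card hq (L t.1) t.2.1 t.2.2))
  rw [Finset.card_univ, Finset.card_univ, Fintype.card_fun, Fintype.card_prod, Fintype.card_prod,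
    hq, hI] at h1
  exact absurd h1 (by norm_num)

theorem deriv_count (h2 : (2 : K) = 0) (r : K → K) (a c b : K) (h : (a, c) ≠ 0) :
    (univ.filter fun z : K × K => ((z.1 + a) * (z.2 + c) + r (z.2 + c)) + (z.1 * z.2 + r z.2) = b).card
      = Fintype.card K := by
  symm
  rw [← Finset.card_univ]
  by_cases hc : c = 0
  · subst hc
    have ha : a ≠ 0 := fun ha => h (by rw [ha]; rfl)
    refine Finset.card_bij (fun x _ => (x, b / a)) ?_ ?_ ?_
    · intro x _
      refine Finset.mem_filter.2 ⟨Finset.mem_univ _, ?_⟩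
      simp only [add_zero]
      have : a * (b / a) = b := mul_div_cancel₀ b ha
      linear_combination this + (x * (b / a) + r (b / a)) * h2
    · intro x _ x' _ e; exact (Prod.ext_iff.1 e).1
    · rintro ⟨x, y⟩ hz
      have hz := (Finset.mem_filter.1 hz).2
      simp only [add_zero] at hz
      refine ⟨x, Finset.mem_univ _, ?_⟩
      congr 1
      rw [div_eq_iff ha]
      linear_combination (x * y + r y) * h2 - hz
  · refine Finset.card_bij (fun y _ => ((b - a * y - a * c - r (y + c) - r y) / c, y)) ?_ ?_ ?_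
    · intro y _
      refine Finset.mem_filter.2 ⟨Finset.mem_univ _, ?_⟩
      have : (b - a * y - a * c - r (y + c) - r y) / c * c = b - a * y - a * c - r (y + c) - r y :=
        div_mul_cancel₀ _ hc
      simp only []
      linear_combination this + ((b - a * y - a * c - r (y + c) - r y) / c * y) * h2
    · intro x _ x' _ e; exact (Prod.ext_iff.1 e).2
    · rintro ⟨x, y⟩ hz
      have hz := (Finset.mem_filter.1 hz).2
      simp only [] at hz
      refine ⟨y, Finset.mem_univ _, ?_⟩
      congr 1
      rw [div_eq_iff hc]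
      linear_combination (x * y) * h2 - hz

end

/-- There is a vectorial bent function that no linear map turns into type minus. -/
theorem result : ∃ (n m : ℕ), Even n ∧ 1 ≤ m ∧ m ≤ n / 2 ∧
    ∃ F : (Fin n → ZMod 2) → (Fin m → ZMod 2), Bent F ∧
      ∀ L : (Fin n → ZMod 2) →ₗ[ZMod 2] (Fin m → ZMod 2), ¬ TypeMinus (fun x => F x + L x) := by
  classical
  let K := GaloisField 2 7
  haveI : Fintype K := Fintype.ofFinite K
  have hq : Fintype.card K = 128 := by
    rw [← Nat.card_eq_fintype_card, GaloisField.card 2 7 (by norm_num)]; norm_num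
  have hr : Module.finrank (ZMod 2) K = 7 := GaloisField.finrank 2 (by norm_num)
  let e : K ≃ₗ[ZMod 2] (Fin 7 → ZMod 2) := LinearEquiv.ofFinrankEq _ _ (by simp [hr])
  let E : (K × K) ≃ₗ[ZMod 2] (Fin 14 → ZMod 2) := LinearEquiv.ofFinrankEq _ _ (by simp [hr])
  have h2 : (2 : K) = 0 := CharTwo.two_eq_zero
  let M := Matrix (Fin 7) (Fin 14) (ZMod 2)
  have hI : Fintype.card M = 2 ^ 98 := by
    rw [H14.TriProd.card_mat]; simp
  obtain ⟨r, hrho⟩ := exists_rho hq hI (fun A : M =>
    (e.symm.toLinearMap ∘ₗ Matrix.toLin' A ∘ₗ E.toLinearMap).toAddMonoidHom)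
  refine ⟨14, 7, by decide, by norm_num, by norm_num,
    fun z => e ((E.symm z).1 * (E.symm z).2 + r (E.symm z).2), ?_, ?_⟩
  · intro a ha b
    have h := deriv_count h2 r (E.symm a).1 (E.symm a).2 (e.symm b) (by
      intro h
      apply ha
      have : E.symm a = 0 := h
      simpa using this)
    rw [hq] at h
    refine Eq.trans ?_ (h.trans (by norm_num))
    refine Finset.card_equiv E.symm.toEquiv (fun x => ?_)
    simp only [Finset.mem_filter, Finset.mem_univ, true_and, LinearEquiv.coe_toEquiv, map_add E.symm,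
      Prod.fst_add, Prod.snd_add]
    rw [← map_add e, LinearEquiv.eq_symm_apply]
  · rintro L ⟨a, ha, -⟩
    have ha : (univ.filter fun x => e ((E.symm x).1 * (E.symm x).2 + r (E.symm x).2) + L x = a).card
        = 1 := by
      norm_num at ha ⊢
      exact_mod_cast ha
    obtain ⟨z0, hz0⟩ := Finset.card_eq_one.1 ha
    apply hrho (LinearMap.toMatrix' L) (e.symm a) (E.symm z0).2
    intro y hy x h
    have : E (x, y) ∈ univ.filter fun x =>
        e ((E.symm x).1 * (E.symm x).2 + r (E.symm x).2) + L x = a := by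
      refine Finset.mem_filter.2 ⟨Finset.mem_univ _, ?_⟩
      have h' := congrArg e h
      simpa using h'
    rw [hz0, Finset.mem_singleton] at this
    apply hy
    rw [← this]; simp

end Pool.Agent.Results.MP_7d7944_co.NoMinus
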